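import Pool.Agent.W425.GN.Defs3
import Pool.Agent.W924.GN.B1

set_option autoImplicit false

/-! Project GN, part B1L: the Weyl algebra and the symbols, local version. -/

namespace Pool.Agent.W193.GN

open MvPolynomial Pool.Agent.H628R4.TP Pool.Agent.W425.GN Pool.Agent.W924.GN

/-- Part B1L -/
theorem b1L : TaskB1L := by
  intro h1 h5 n f b u
  constructor
  · rintro ⟨P, hP⟩
    have hW : ∀ m, Rp (P m : Module.End ℂ (MvPolynomial (Fin n) ℂ)) :=
      fun m => rp_weyl h1 h5 _ (P m).2
    choose W hW using hW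
    refine ⟨∑ m ∈ P.support, ls^[m] (W m), fun s => ?_⟩
    rw [← mul_assoc, hP s, act_sum]
    unfold Finsupp.sum
    refine Finset.sum_congr rfl fun m _ => ?_
    rw [act_ls_iter h1, ← hW m]
  · rintro ⟨P, hP⟩
    obtain ⟨P', hP'⟩ := rq_all h1 P
    refine ⟨P', fun s => ?_⟩
    rw [mul_assoc, hP s, hP']
    rfl

end Pool.Agent.W193.GN
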